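import Mathlib

set_option autoImplicit false

namespace Pool.Agent.Results.MP_a8308c_an.Spacing

open Topology

/-- the set of the points T^n x with n >= m -/
def Orb {X : Type} (T : X → X) (x : X) (m : ℕ) : Set X := {y | ∃ n, m ≤ n ∧ y = T^[n] x}

def pw (k : ℕ) : ℕ := 4 ^ (k + 1)

lemma f1 {j k : ℕ} (h : j < k) : 4 * pw j ≤ pw k := by
  unfold pw
  rw [← pow_succ']
  exact Nat.pow_le_pow_right (by norm_num) (by omega)

lemma f2 (k : ℕ) : 4 * k < pw k := by
  unfold pw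
  have : k < 4 ^ k := Nat.lt_pow_self (by norm_num)
  rw [pow_succ]; omega

def inA (W : ℕ → Finset ℕ) (n : ℕ) : Prop :=
  ∃ k s, n = pw k + s ∧ s < k ∧ s ∈ W k ∧
    ∀ d (_ : d < n), (∃ t, t ∈ W k ∧ t + d ∈ W k ∧ t + d < k) → ¬ inA W d
termination_by n

def Adm (W : ℕ → Finset ℕ) (k : ℕ) (S : Finset ℕ) : Prop :=
  ∀ t d, t ∈ S → t + d ∈ S → t + d < k → ¬ inA W d

lemma inA_iff (W : ℕ → Finset ℕ) (n : ℕ) :
    inA W n ↔ ∃ k s, n = 1 * pw k + s ∧ s < k ∧ s ∈ W k ∧ Adm W k (W k) := by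
  rw [inA]
  constructor
  · rintro ⟨k, s, h1, h2, h3, h4⟩
    refine ⟨k, s, by omega, h2, h3, fun t d a b c => h4 d ?_ ⟨t, a, b, c⟩⟩
    have := f2 k
    omega
  · rintro ⟨k, s, h1, h2, h3, h4⟩
    exact ⟨k, s, by omega, h2, h3, fun d _ ⟨t, a, b, c⟩ => h4 t d a b c⟩

def pl (W V : ℕ → Finset ℕ) (c n : ℕ) : Prop :=
  ∃ k s, n = c * pw k + s ∧ s < k ∧ s ∈ V k ∧ Adm W k (V k)

lemma pl_win {W V : ℕ → Finset ℕ} {c k i : ℕ} (hc : c = 1 ∨ c = 2) (hi : i < k)
    (hA : Adm W k (V k)) : pl W V c (i + c * pw k) ↔ i ∈ V k := by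
  constructor
  · rintro ⟨l, s, h1, h2, h3, -⟩
    have a1 := f2 k
    have a2 := f2 l
    rcases lt_trichotomy l k with h | h | h
    · have := f1 h
      rcases hc with rfl | rfl <;> omega
    · subst h
      have : i = s := by omega
      rwa [this]
    · have := f1 h
      rcases hc with rfl | rfl <;> omega
  · intro h
    exact ⟨k, i, by omega, hi, h, hA⟩

def P (W : ℕ → Finset ℕ) (y : ℕ → Bool) : Prop :=
  ∀ i d, y i = true → y (i + d) = true → ¬ inA W d

lemma P1 (W : ℕ → Finset ℕ) (i d : ℕ) (h1 : inA W i) (h2 : inA W (i + d)) : ¬ inA W d := by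
  intro h3
  obtain ⟨j, s', a1, a2, a3, -⟩ := (inA_iff W i).1 h1
  obtain ⟨k, s, b1, b2, b3, b4⟩ := (inA_iff W _).1 h2
  obtain ⟨l, s'', c1, c2, c3, -⟩ := (inA_iff W d).1 h3
  have e1 := f2 j
  have e2 := f2 k
  have e3 := f2 l
  rcases lt_trichotomy j k with h | h | h
  · rcases lt_trichotomy l k with g | g | g
    · have := f1 h
      have := f1 g
      omega
    · subst g
      exact b4 s'' i c3 (by rwa [show s'' + i = s by omega]) (by omega) h1
    · have := f1 g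
      omega
  · subst h
    exact b4 s' d a3 (by rwa [show s' + d = s by omega]) (by omega) h3
  · have := f1 h
    omega

lemma P2 (W V : ℕ → Finset ℕ) (i d : ℕ) (h1 : pl W V 2 i) (h2 : pl W V 2 (i + d)) :
    ¬ inA W d := by
  intro h3
  obtain ⟨j, s', a1, a2, a3, -⟩ := h1
  obtain ⟨k, s, b1, b2, b3, b4⟩ := h2
  obtain ⟨l, s'', c1, c2, c3, -⟩ := (inA_iff W d).1 h3
  have e1 := f2 j
  have e2 := f2 k
  have e3 := f2 l
  rcases lt_trichotomy j k with h | h | h
  · have := f1 h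
    rcases lt_trichotomy l k with g | g | g
    · have := f1 g
      omega
    · subst g
      omega
    · have := f1 g
      omega
  · subst h
    exact b4 s' d a3 (by rwa [show s' + d = s by omega]) (by omega) h3
  · have := f1 h
    omega

lemma not0 (W : ℕ → Finset ℕ) : ¬ inA W 0 := by
  intro h
  obtain ⟨j, s, a1, -⟩ := (inA_iff W 0).1 h
  have := f2 j
  omega

def Y (W : ℕ → Finset ℕ) : Type := {y : ℕ → Bool // P W y}

instance (W : ℕ → Finset ℕ) : TopologicalSpace (Y W) :=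
  inferInstanceAs (TopologicalSpace {y : ℕ → Bool // P W y})

lemma closedP (W : ℕ → Finset ℕ) : IsClosed {y : ℕ → Bool | P W y} := by
  have : {y : ℕ → Bool | P W y} = ⋂ i, ⋂ d,
      {y | y i = true → y (i + d) = true → ¬ inA W d} := by
    ext x; simp only [P, Set.mem_ofPred_eq, Set.mem_iInter]
  rw [this]
  refine isClosed_iInter fun i => isClosed_iInter fun d => ?_
  by_cases hC : inA W d
  · have e : {y : ℕ → Bool | y i = true → y (i + d) = true → ¬ inA W d} =
        ((fun y : ℕ → Bool => y i) ⁻¹' {true} ∩ (fun y : ℕ → Bool => y (i + d)) ⁻¹' {true})ᶜ := by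
      ext y; simp [hC]
    rw [e, isClosed_compl_iff]
    exact ((isOpen_discrete _).preimage (continuous_apply i)).inter
      ((isOpen_discrete _).preimage (continuous_apply (i + d)))
  · simp [hC]

instance (W : ℕ → Finset ℕ) : CompactSpace (Y W) :=
  isCompact_iff_compactSpace.1 (closedP W).isCompact

instance (W : ℕ → Finset ℕ) : TopologicalSpace.MetrizableSpace (Y W) := by
  have : TopologicalSpace.MetrizableSpace (ℕ → Bool) :=
    TopologicalSpace.metrizableSpace_of_t3_secondCountable _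
  exact Topology.IsEmbedding.metrizableSpace
    (f := (Subtype.val : {y : ℕ → Bool // P W y} → ℕ → Bool)) Topology.IsEmbedding.subtypeVal

def T (W : ℕ → Finset ℕ) (y : Y W) : Y W :=
  ⟨fun n => y.1 (n + 1), fun i d h1 h2 =>
    y.2 (i + 1) d h1 (by rw [show i + 1 + d = i + d + 1 by omega]; exact h2)⟩

lemma T_iter (W : ℕ → Finset ℕ) (n : ℕ) (y : Y W) (m : ℕ) : ((T W)^[n] y).1 m = y.1 (m + n) := by
  induction n generalizing y with
  | zero => rfl
  | succ n ih => rw [Function.iterate_succ_apply, ih]; rfl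

lemma cont_ev {W : ℕ → Finset ℕ} (h : ℕ) : Continuous fun x : Y W => x.1 h :=
  (continuous_apply h).comp continuous_subtype_val

lemma T_cont (W : ℕ → Finset ℕ) : Continuous (T W) :=
  Continuous.subtype_mk (continuous_pi fun h => cont_ev (h + 1)) _

lemma T_surj (W : ℕ → Finset ℕ) : Function.Surjective (T W) := by
  intro y
  refine ⟨⟨fun n => Nat.casesOn n false y.1, ?_⟩, rfl⟩
  intro i d h1 h2
  cases i with
  | zero => simp at h1
  | succ i =>
    rw [show i + 1 + d = i + d + 1 by omega] at h2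
    exact y.2 i d h1 h2

lemma cyl {W : ℕ → Finset ℕ} {z : Y W} {U : Set (Y W)} (hU : U ∈ 𝓝 z) :
    ∃ L, ∀ y : Y W, (∀ i < L, y.1 i = z.1 i) → y ∈ U := by
  obtain ⟨V, hV, hVU⟩ := (mem_nhds_subtype _ _ _).1 hU
  rw [nhds_pi, Filter.mem_pi'] at hV
  obtain ⟨F, S, hS, hFS⟩ := hV
  refine ⟨F.sup id + 1, fun y hy => hVU (hFS fun g hg => ?_)⟩
  show y.1 g ∈ S g
  rw [hy g (Nat.lt_succ_of_le (Finset.le_sup (f := id) hg))]
  exact mem_of_mem_nhds (hS g)

def win {W : ℕ → Finset ℕ} (z : Y W) (L : ℕ) : Finset ℕ :=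
  (Finset.range L).filter fun i => z.1 i = true

lemma win_adm {W : ℕ → Finset ℕ} (z : Y W) (L k : ℕ) : Adm W k (win z L) := fun t d h1 h2 _ =>
  z.2 t d (Finset.mem_filter.1 h1).2 (Finset.mem_filter.1 h2).2

open Classical in
lemma hit {W V : ℕ → Finset ℕ} {c : ℕ} (hc : c = 1 ∨ c = 2) {z : Y W} {L k : ℕ} (hk : L ≤ k)
    (hV : V k = win z L) {i : ℕ} (hi : i < L) :
    decide (pl W V c (i + c * pw k)) = z.1 i := by
  have h1 := pl_win (W := W) (V := V) hc (lt_of_lt_of_le hi hk) (hV ▸ win_adm z L k)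
  rw [hV, win, Finset.mem_filter, Finset.mem_range] at h1
  by_cases h : z.1 i = true
  · rw [h]; exact decide_eq_true (h1.2 ⟨hi, h⟩)
  · rw [Bool.not_eq_true] at h
    rw [h]
    exact decide_eq_false fun h2 => by simpa [h] using (h1.1 h2).2

lemma enum : ∃ V1 V2 : ℕ → Finset ℕ, ∀ S1 S2 L, ∃ k, L ≤ k ∧ V1 k = S1 ∧ V2 k = S2 := by
  obtain ⟨e, he⟩ := exists_surjective_nat (Finset ℕ × Finset ℕ × ℕ)
  refine ⟨fun k => (e k).1, fun k => (e k).2.1, fun S1 S2 L => ?_⟩
  by_contra hc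
  push Not at hc
  have h1 : (Set.univ : Set ℕ) ⊆ (fun k => (e k).2.2) '' Set.Iio L := by
    intro n _
    obtain ⟨k, hk⟩ := he (S1, S2, n)
    refine ⟨k, ?_, by simp [hk]⟩
    by_contra h2
    exact hc k (by simpa using h2) (by simp [hk]) (by simp [hk])
  exact Set.infinite_univ (((Set.finite_Iio L).image _).subset h1)

def dl (W : ℕ → Finset ℕ) (a : ℕ) : Y W := ⟨fun n => decide (n = a), fun i d h1 h2 => by
  simp only [decide_eq_true_eq] at h1 h2
  rw [show d = 0 by omega]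
  exact not0 W⟩

lemma main : ∃ W : ℕ → Finset ℕ,
    (∃ p : Y W × Y W, Dense (Orb (Prod.map (T W) (T W)) p 1)) ∧
    ∃ x : Y W, Dense (Orb (T W) x 1) ∧
      ∀ y : Y W, ¬ Dense (Orb (Prod.map (T W) (T W)) (x, y) 0) := by
  classical
  obtain ⟨W, V, hV⟩ := enum
  refine ⟨W, ⟨(⟨fun n => decide (pl W W 2 n), fun i d h1 h2 =>
      P2 W W i d (of_decide_eq_true h1) (of_decide_eq_true h2)⟩,
    ⟨fun n => decide (pl W V 2 n), fun i d h1 h2 =>
      P2 W V i d (of_decide_eq_true h1) (of_decide_eq_true h2)⟩), ?_⟩,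
    ⟨fun n => decide (pl W W 1 n), fun i d h1 h2 =>
      P1 W i d ((inA_iff W _).2 (of_decide_eq_true h1))
        ((inA_iff W _).2 (of_decide_eq_true h2))⟩, ?_, ?_⟩
  · rintro ⟨z1, z2⟩
    rw [mem_closure_iff_nhds]
    intro U hU
    obtain ⟨U1, h1, U2, h2, hU⟩ := mem_nhds_prod_iff.1 hU
    obtain ⟨L1, g1⟩ := cyl h1
    obtain ⟨L2, g2⟩ := cyl h2
    obtain ⟨k, hk, e1, e2⟩ := hV (win z1 (L1 + L2)) (win z2 (L1 + L2)) (L1 + L2)
    refine ⟨_, hU ?_, 2 * pw k, by have := f2 k; omega, rfl⟩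
    rw [Prod.map_iterate]
    refine ⟨g1 _ fun i hi => ?_, g2 _ fun i hi => ?_⟩
    · exact (T_iter W _ _ i).trans (hit (Or.inr rfl) hk e1 (by omega))
    · exact (T_iter W _ _ i).trans (hit (Or.inr rfl) hk e2 (by omega))
  · intro z
    rw [mem_closure_iff_nhds]
    intro U hU
    obtain ⟨L, g⟩ := cyl hU
    obtain ⟨k, hk, e1, -⟩ := hV (win z L) ∅ L
    refine ⟨_, g _ fun i hi => ?_, 1 * pw k, by have := f2 k; omega, rfl⟩
    exact (T_iter W _ _ i).trans (hit (Or.inl rfl) hk e1 hi)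
  · intro y hD
    have key : ∀ a : ℕ, ∃ n, inA W n ∧ y.1 (a + n) = true := by
      intro a
      have ho : IsOpen {p : Y W × Y W | p.1.1 0 = true ∧ p.2.1 a = true} :=
        ((isOpen_discrete {true}).preimage ((cont_ev 0).comp continuous_fst)).inter
          ((isOpen_discrete {true}).preimage ((cont_ev a).comp continuous_snd))
      obtain ⟨p, ⟨n, -, rfl⟩, h1, h2⟩ := hD.exists_mem_open ho
        ⟨(dl W 0, dl W a), by simp [dl], by simp [dl]⟩
      rw [Prod.map_iterate] at h1 h2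
      have h3 := (T_iter W n _ 0).symm.trans h1
      have h4 := (T_iter W n _ a).symm.trans h2
      refine ⟨n, (inA_iff W n).2 ?_, h4⟩
      have h5 : pl W W 1 (0 + n) := of_decide_eq_true h3
      rw [zero_add] at h5
      exact h5
    obtain ⟨n, -, h1⟩ := key 0
    obtain ⟨m, h2, h3⟩ := key (0 + n)
    exact y.2 _ m h1 h3 h2

theorem result : ∃ (X : Type) (_ : MetricSpace X) (_ : CompactSpace X) (T : X → X),
    Continuous T ∧ Function.Surjective T ∧
    (∃ p : X × X, Dense (Orb (Prod.map T T) p 1)) ∧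
    ∃ x : X, Dense (Orb T x 1) ∧ ∀ y : X, ¬ Dense (Orb (Prod.map T T) (x, y) 0) := by
  obtain ⟨W, h1, h2⟩ := main
  exact ⟨Y W, TopologicalSpace.metrizableSpaceMetric (Y W), inferInstanceAs (CompactSpace (Y W)),
    T W, T_cont W, T_surj W, h1, h2⟩

end Pool.Agent.Results.MP_a8308c_an.Spacing
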